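import Pool.Agent.Lib.MP_6df72f_an.Univ

/-!
Basic sequences of functionals on a subspace extend to basic sequences on the whole space.
-/

set_option autoImplicit false

namespace Pool.Agent.Results.MP_6df72f_an.SchauderLift

open Filter Topology

universe u v

/-- If every element of the closed span of the nonzero functionals `φ n` on `G` has a unique
expansion, then there are extensions `f n` to `E` forming a Schauder basis (with continuous
coordinate functionals) of their closed span. -/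
theorem result (𝕜 : Type u) [RCLike 𝕜] (E : Type v) [NormedAddCommGroup E] [NormedSpace 𝕜 E]
    (G : Submodule 𝕜 E) (φ : ℕ → StrongDual 𝕜 G) (h0 : ∀ n, φ n ≠ 0)
    (hφ : ∀ y ∈ (Submodule.span 𝕜 (Set.range φ)).topologicalClosure,
      ∃! a : ℕ → 𝕜, Tendsto (fun N => ∑ i ∈ Finset.range N, a i • φ i) atTop (𝓝 y)) :
    ∃ f : ℕ → StrongDual 𝕜 E, (∀ (n : ℕ) (x : G), f n x = φ n x) ∧
      ∃ b : SchauderBasis 𝕜 (Submodule.span 𝕜 (Set.range f)).topologicalClosure,
        ∀ n, (b.basis n : StrongDual 𝕜 E) = f n := by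
  let q : StrongDual 𝕜 E →L[𝕜] StrongDual 𝕜 G :=
    (ContinuousLinearMap.compL 𝕜 G E 𝕜).flip G.subtypeL
  have hq : Function.Surjective q := by
    intro ψ
    obtain ⟨g, hg, -⟩ := exists_extension_norm_eq G ψ
    exact ⟨g, ContinuousLinearMap.ext fun x => hg x⟩
  obtain ⟨K, hK0, hK⟩ := Pool.Agent.Lib.MP_6df72f_an.U.grunblum_of_existsUnique φ hφ
  obtain ⟨f, hf, K', hK0', hK'⟩ := Pool.Agent.Lib.MP_6df72f_an.U.exists_lift q hq φ K hK0 hK
  refine ⟨f, fun n x => by rw [← hf n]; rfl,
    Pool.Agent.Lib.MP_6df72f_an.U.schauder_of_grunblum f (fun n h => h0 n ?_) K' hK0' hK'⟩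
  rw [← hf n, h, map_zero]

end Pool.Agent.Results.MP_6df72f_an.SchauderLift
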