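import Pool.Agent.Lib.MP_6df72f_an.KP.Log

/-!
A normalised basic sequence of functionals on a subspace need not have a bounded basic sequence
of extensions.
-/

set_option autoImplicit false

namespace Pool.Agent.Results.MP_6df72f_an.UnboundedLift

open Filter Topology

universe u v

/-- nonzero vectors such that every element of their closed span has a unique norm convergent
expansion -/
def IsBasic (𝕜 : Type u) [RCLike 𝕜] {X : Type v} [NormedAddCommGroup X] [NormedSpace 𝕜 X]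
    (x : ℕ → X) : Prop :=
  (∀ n, x n ≠ 0) ∧ ∀ y ∈ (Submodule.span 𝕜 (Set.range x)).topologicalClosure,
    ∃! a : ℕ → 𝕜, Tendsto (fun N => ∑ i ∈ Finset.range N, a i • x i) atTop (𝓝 y)

/-- `E` has a closed subspace `G` and a basic sequence in the dual of `G`, isometric to the unit
vectors of the square summable sequences, all of whose basic sequences of extensions to `E` have
norms growing at least logarithmically -/
def HasBadSequence (𝕜 : Type u) [RCLike 𝕜] (E : Type v) [NormedAddCommGroup E]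
    [NormedSpace 𝕜 E] : Prop :=
  ∃ (G : Submodule 𝕜 E) (φ : ℕ → StrongDual 𝕜 G), IsClosed (G : Set E) ∧ IsBasic 𝕜 φ ∧
    (∀ (a : ℕ → 𝕜) (N : ℕ),
      ‖∑ i ∈ Finset.range N, a i • φ i‖ ^ 2 = ∑ i ∈ Finset.range N, ‖a i‖ ^ 2) ∧
    ∀ f : ℕ → StrongDual 𝕜 E, (∀ (n : ℕ) (x : G), f n x = φ n x) → IsBasic 𝕜 f →
      ∃ c : ℝ, 0 < c ∧ ∀ N : ℕ, 1 ≤ N → ∃ n < N, c * Real.log N ≤ ‖f n‖

theorem result (𝕜 : Type u) [RCLike 𝕜] :
    ∃ (E : Type u) (_ : NormedAddCommGroup E) (_ : NormedSpace 𝕜 E),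
      CompleteSpace E ∧ HasBadSequence 𝕜 E := by
  obtain ⟨E, i1, i2, hE, ⟨M⟩⟩ := Pool.Agent.Lib.MP_6df72f_an.KP.exists_model 𝕜
  refine ⟨E, i1, i2, hE, M.G, M.phi, M.G_closed, ⟨M.phi_ne,
    Pool.Agent.Lib.MP_6df72f_an.U.existsUnique_of_grunblum M.phi M.phi_ne 1 zero_le_one
      M.phi_grunblum⟩, fun a N => ?_, fun f hf hb => ?_⟩
  · rw [M.norm_phi, Real.sq_sqrt (Finset.sum_nonneg fun _ _ => by positivity)]
  · obtain ⟨K, hK0, hK⟩ := Pool.Agent.Lib.MP_6df72f_an.U.grunblum_of_existsUnique f hb.2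
    exact ⟨1 / (1600 * (K + 1)), by positivity,
      M.growth f (fun i k => (hf i (M.aG k)).trans (M.phi_a i k)) K hK0 hK⟩

end Pool.Agent.Results.MP_6df72f_an.UnboundedLift
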